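import Pool.Agent.N322.CF.Tw
import Pool.Agent.N676.OR.Cnt
import Pool.Agent.N676.OR.ZC
import Pool.Agent.N53.CF.All
import Pool.Agent.Results.MP_1ad228_nt.ZeroCyclesOfTwistedCoverings

/-!
# Zero-cycles of degree one on twists of cyclic coverings, for twists by the numerators and denominators
of the convergents of every continued fraction normal number

Let `b y ^ 2 = ∏ k, G k (z, w)` be a hyperelliptic curve `D` over `ℚ`, where the `G k` are the
homogenisations of polynomials `g k` with integral coefficients, of even degrees, pairwise coprime.
Let `h` be a nonconstant polynomial with integral coefficients, coprime to the `g k`, and `H` its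
homogenisation. For an integer `a` and an even `m ∣ deg h` consider the curve

  `C a : b y ^ 2 = ∏ k, G k (z, w)`, `a x ^ m = H (z, w)`,

a cyclic covering of `D`; for different `a` these coverings are twists of each other, for example the
curves `b y ^ 2 = ∏ g k (a x ^ m)`. The genus is arbitrary, and nothing is known about the
Tate-Shafarevich groups of the Jacobians. The starting result `ZeroCyclesOfTwistedCoverings` (whose
definitions are used) is about 100% of the squarefree integers `|a| ≤ X`, for one family `(b, g, h)`.

The functions `G k` have even divisors on `D`, so the value `∏ N (G k (P i)) ^ c i` modulo squares of a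
zero-cycle `∑ c i P i` over a field, with points `P i` over finite extensions, depends only on the class
in `CH₀ / 2`, and the quaternion algebras `(G k, e)`, `e` a nonzero integer, belong to the Brauer group
of `C a`. An adelic zero-cycle is orthogonal if the sum of the local invariants of each of these classes
is zero. The integer `a` has the property `GoodTwist` if for all even `m ∣ deg h`, `m > 0`:

* every orthogonal adelic zero-cycle of odd degree (for instance, of degree one) on `C a` has the values
  of a persistent class: there are squarefree integers `n k` such that the products of `n k` and of the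
  values of `G k` are squares at all places, and for every automorphism `σ` of the field of algebraic
  numbers there is a `σ`-stable set of zeros `β` of `h` of odd cardinality with
  `∏ β, g k (β) = n k * y k ^ 2`, `σ (y k) = y k`;
* if the zeros of `h` are one or two rational numbers (with any multiplicities), the existence of an
  orthogonal adelic zero-cycle of odd degree implies the existence of a rational point;
* if there are no persistent classes, no adelic zero-cycle of odd degree is orthogonal.

So in the last two cases the Brauer-Manin obstruction is the only one to the existence of zero-cycles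
of degree one on `C a`, and even of rational points, without assumptions on the Tate-Shafarevich groups.

**Theorem.** Let `α ∈ (0, 1)` be a continued fraction normal number (`CFNormal`: `α` is irrational, and
its orbit under the Gauss map `x ↦ 1 / x - ⌊1 / x⌋` is distributed according to the Gauss measure
`dx / ((1 + x) log 2)`), with the convergents `p_n / q_n` (`cvg (dig α) n = (p_n, q_n)`). Then there is
ONE set `E` of indices of natural density zero such that for ALL families `(b, g, h)` and ALL integers
`u`, `v`, not both zero, the twist by `a = u p_n + v q_n` has the property `GoodTwist` for all but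
finitely many `n ∉ E`. In particular this is so for the twists by the numerators `p_n` and by the
denominators `q_n`. Almost all numbers `α` are normal, and explicit ones are known (Adler, Keane,
Smorodinsky).

The condition is only on `α`; it does not depend on the families of curves. There are at most
`O(log X)` convergents with `q_n ≤ X`, and the integers `a` are not squarefree in general.

The third case occurs for `g = (z ^ 2 + 51, z ^ 2 - 1)`, `h = (z ^ 2 + 1) (z ^ 2 - 17) (z ^ 2 + 17)`,
`b = 1`, and then there are points over the real numbers and over all the `p`-adic fields on all the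
curves `C a` (last part of the theorem, from the starting result).

Proof. A set of integral vectors is pronull if its closure in the product of the `ℤ_p ^ 2` over the
primes `p` which do not divide `M` has Haar measure zero, for all `M`. For a class which is not
persistent there are a positive proportion of primes `p` (Chebotarev's theorem) such that no zero-cycle
on `C a` over `ℚ_p` has this class if `p` divides `a` exactly once (local analysis of helper925). The set
of the vectors `c` for which no such prime divides `λ(c)` exactly once is pronull (helper676, with the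
engine of helper24, helper300 and helper765). The convergents of a normal number modulo an odd number
are equidistributed (ergodicity of the extensions of the Gauss map by finite groups, and a comparison
with almost all numbers; campaign CF of helper53), so they are in a pronull set only for indices of
density zero. There are countably many `(b, g, h)` and `λ`, and a diagonal argument gives one set `E`.
-/

set_option autoImplicit false

namespace Pool.Agent.Results.MP_1ad228_nt.ConvergentsOfNormalNumbers

open Polynomial MeasureTheory Filter Topology Pool.Agent.R925.FD Pool.Agent.R925.ZC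
open Pool.Agent.Results.MP_1ad228_nt.ZeroCyclesOfTwistedCoverings
  (Admissible OddDegree OfPersistentClass NoPersistentClasses parity_of_odd)
open Pool.Agent.N676.OR (Hit Big)
open Pool.Agent.N53.CF (CFNormal cvg S_CF S_TYP)
open Pool.Agent.W811.Stu (gauss dig)

/-- `E` has natural density zero. -/
def DensityZero (E : Set ℕ) : Prop :=
  Tendsto (fun N : ℕ => (({x : ℕ | x < N ∧ x ∈ E}.ncard : ℕ) : ℝ) / (N : ℝ)) atTop (𝓝 0)

/-- The orthogonal adelic zero-cycles of odd degree on the curves `C a`, `m` even, `m ∣ deg h`, have the
values of persistent classes; if `h` has one or two rational zeros, they exist only if there is a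
rational point; there are none if there are no persistent classes. -/
def GoodTwist {r : ℕ} (b : ℤ) (g : Fin r → ℤ[X]) (h : ℤ[X]) (a : ℤ) : Prop :=
  ∀ m : ℕ, 0 < m → Even m → m ∣ h.natDegree →
    (∀ Z : AdelicCycle m b a g h, OddDegree Z → Z.Orthogonal → OfPersistentClass Z) ∧
    (∀ α₁ α₂ : ℚ, (∀ β : AlgebraicClosure ℚ, aeval β h = 0 ↔ β = α₁ ∨ β = α₂) →
      (∃ Z : AdelicCycle m b a g h, OddDegree Z ∧ Z.Orthogonal) → Nonempty (Point m b a g h ℚ)) ∧
    (NoPersistentClasses b g h → ∀ Z : AdelicCycle m b a g h, OddDegree Z → ¬ Z.Orthogonal)

lemma goodTwist_of {r : ℕ} {b : ℤ} {g : Fin r → ℤ[X]} {h : ℤ[X]} (hA : Admissible b g h) :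
    ∃ PP : Set (Set ℕ), PP.Finite ∧ (∀ P ∈ PP, Big P) ∧
      ∀ a : ℤ, (∀ P ∈ PP, Hit P a) → GoodTwist b g h a := by
  classical
  obtain ⟨PP, h1, h2, h3⟩ :=
    Pool.Agent.N676.OR.zc_once hA.b_ne hA.g_ne hA.h_deg hA.deg hA.coprime hA.coprime_h
  refine ⟨PP, h1, h2, fun a ha m hm0 hm hmh => ?_⟩
  have h4 : ∀ Z : AdelicCycle m b a g h, OddDegree Z → Z.Orthogonal → OfPersistentClass Z :=
    fun Z hd hZ => h3 a ha m hm hmh 1 Z (parity_of_odd hd) hZ
  refine ⟨h4, fun α₁ α₂ hz hex => ?_, fun hno Z hd hZ => ?_⟩
  · obtain ⟨Z, hd, hZ⟩ := hex
    obtain ⟨n, _, hn2, hn3, _⟩ := h4 Z hd hZ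
    obtain ⟨P, -⟩ := realize_odd (m := m) (a := a) hm0 hA.b_ne hz
      (fun k => g_ne hA.h_deg hA.coprime_h ((hz α₁).2 (Or.inl rfl)) k)
      (fun k => g_ne hA.h_deg hA.coprime_h ((hz α₂).2 (Or.inr rfl)) k) odd_one _ hn2 hn3
    exact ⟨P⟩
  · obtain ⟨n, _, hn2, hn3, _⟩ := h4 Z hd hZ
    exact hno _ hn2 hn3

/-- all families of curves at once -/
theorem conv (hM : S_CF) (α : ℝ) (hα : CFNormal α) : ∃ E : Set ℕ, DensityZero E ∧
    ∀ (r : ℕ) (b : ℤ) (g : Fin r → ℤ[X]) (h : ℤ[X]), Admissible b g h →
      ∀ u v : ℤ, u ≠ 0 ∨ v ≠ 0 →
        {n : ℕ | n ∉ E ∧ ¬ GoodTwist b g h (u * cvg (dig α) n 0 + v * cvg (dig α) n 1)}.Finite := by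
  classical
  have hcp := Pool.Agent.N676.OR.countable_poly
  obtain ⟨E, hE, hall⟩ := Pool.Agent.N322.CF.cf_tw' hM
    (𝔇 := Σ r : ℕ, ℤ × (Fin r → ℤ[X]) × ℤ[X])
    (fun D a => Admissible D.2.1 D.2.2.1 D.2.2.2 → GoodTwist D.2.1 D.2.2.1 D.2.2.2 a) (by
      rintro ⟨r, b, g, h⟩
      by_cases hA : Admissible b g h
      · obtain ⟨PP, h1, h2, h3⟩ := goodTwist_of hA
        exact ⟨PP, h1, h2, fun a ha _ => h3 a ha⟩
      · exact ⟨∅, Set.finite_empty, fun P hP => absurd hP (Set.notMem_empty _),
          fun a _ hA' => absurd hA' hA⟩) α hα
  refine ⟨E, hE, fun r b g h hA u v huv => (hall u v huv ⟨r, b, g, h⟩).subset ?_⟩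
  rintro n ⟨hn, hn'⟩
  exact ⟨hn, fun hgood => hn' (hgood hA)⟩

theorem result :
    (∀ᵐ α ∂(volume.restrict (Set.Ioo (0 : ℝ) 1)), CFNormal α) ∧
    (∀ α : ℝ, CFNormal α → ∃ E : Set ℕ, DensityZero E ∧
      ∀ (r : ℕ) (b : ℤ) (g : Fin r → ℤ[X]) (h : ℤ[X]), Admissible b g h →
        ∀ u v : ℤ, u ≠ 0 ∨ v ≠ 0 →
          {n : ℕ | n ∉ E ∧
            ¬ GoodTwist b g h (u * cvg (dig α) n 0 + v * cvg (dig α) n 1)}.Finite) ∧
    Admissible 1 exg exh ∧ NoPersistentClasses 1 exg exh ∧
    ∀ (m : ℕ) (a : ℤ), m ≠ 0 → Nonempty (Point m 1 a exg exh ℝ) ∧
      ∀ (p : ℕ) [Fact p.Prime], Nonempty (Point m 1 a exg exh ℚ_[p]) :=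
  ⟨Pool.Agent.N53.CF.t_TYP, fun α hα => conv Pool.Agent.N53.CF.main α hα,
    Pool.Agent.Results.MP_1ad228_nt.ZeroCyclesOfTwistedCoverings.result.2.2⟩

end Pool.Agent.Results.MP_1ad228_nt.ConvergentsOfNormalNumbers
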