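import Pool.Agent.N18.KM.Tw
import Pool.Agent.N18.KM.Zc
import Pool.Agent.N24.KM.All
import Pool.Agent.N676.OR.Cnt
import Pool.Agent.Results.MP_1ad228_nt.ZeroCyclesOfTwistedCoverings

/-!
# Zero-cycles of degree one on twists of cyclic coverings, for twists along arbitrary sequences and
# almost all multipliers

Let `b y ^ 2 = ∏ k, G k (z, w)` be a hyperelliptic curve `D` over `ℚ`, where the `G k` are the
homogenisations of polynomials `g k` with integral coefficients, of even degrees, pairwise coprime.
Let `h` be a nonconstant polynomial with integral coefficients, coprime to the `g k`, and `H` its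
homogenisation. For an integer `a` and an even `m ∣ deg h` consider the curve

  `C a : b y ^ 2 = ∏ k, G k (z, w)`, `a x ^ m = H (z, w)`,

a cyclic covering of `D`; for different `a` these coverings are twists of each other, for example the
curves `b y ^ 2 = ∏ g k (a x ^ m)`. The genus is arbitrary, and nothing is known about the
Tate-Shafarevich groups of the Jacobians. The starting result
`ZeroCyclesOfTwistedCoverings` (whose definitions are used) is about 100% of the squarefree integers
`|a| ≤ X`, for one family `(b, g, h)`.

The functions `G k` have even divisors on `D`, so the value `∏ N (G k (P i)) ^ c i` modulo squares of a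
zero-cycle `∑ c i P i` over a field, with points `P i` over finite extensions, depends only on the class
in `CH₀ / 2`, and the quaternion algebras `(G k, e)`, `e` a nonzero integer, belong to the Brauer group of
`C a`. An adelic zero-cycle is orthogonal if the sum of the local invariants of each of these classes is
zero. The integer `a` has the property `GoodTwist` if for all even `m ∣ deg h`, `m > 0`:

* every orthogonal adelic zero-cycle of odd degree (for instance, of degree one) on `C a` has the values
  of a persistent class: there are squarefree integers `n k` such that the products of `n k` and of the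
  values of `G k` are squares at all places, and for every automorphism `σ` of the field of algebraic
  numbers there is a `σ`-stable set of zeros `β` of `h` of odd cardinality with
  `∏ β, g k (β) = n k * y k ^ 2`, `σ (y k) = y k`;
* if the zeros of `h` are one or two rational numbers (with any multiplicities), the existence of an
  orthogonal adelic zero-cycle of odd degree implies the existence of a rational point;
* if there are no persistent classes, no adelic zero-cycle of odd degree is orthogonal.

So in the last two cases the Brauer-Manin obstruction is the only one to the existence of zero-cycles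
of degree one on `C a`, and even of rational points, without assumptions on the Tate-Shafarevich groups.

**Theorem.** A sequence `c_0, c_1, …` of vectors in `ℤ ^ ι` (`ι` a finite set) is called good (`Good`) if
there is ONE set `E` of indices of natural density zero, such that for ALL families `(b, g, h)` and ALL
linear forms `λ ≠ 0` with integral coefficients the twist by `a = λ(c_x)` has the property `GoodTwist`
for all but finitely many `x ∉ E`.

1. Let `f_{i,0}, f_{i,1}, …` (`i ∈ ι`) be functions which satisfy the hypothesis of Koksma's theorem on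
   `[a_i, b_i]` (`Koksma`). Then `c_x = (⌊f_{i,x}(α_i)⌋)_i` is good for almost all `α` with
   `a_i ≤ α_i ≤ b_i`.
2. Let `a_{i,0}, a_{i,1}, …` (`i ∈ ι`) be ANY sequences of real numbers with mutual distances at least
   `δ > 0`, for example any sequences of different integers (`x!`, `2 ^ x`, any enumeration of any
   infinite set of integers or of primes), and possibly all the same. Then `c_x = (⌊a_{i,x} α_i⌋)_i` is
   good for almost all `α`.
3. Let `k_0, k_1, …` be ANY sequence of different natural numbers, and `ξ_i ≠ 0`. Then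
   `c_x = (⌊ξ_i α_i ^ k_x⌋)_i` is good for almost all `α` with all `α_i > 1`.

For instance, for almost all real numbers `α` the conclusion holds for the twists by `⌊x! α⌋`, or by
`⌊α ^ x⌋` if `α > 1`, for `100%` of the `x`. There is no condition of growth or regularity: the sequences
can grow arbitrarily fast, so that among the integers up to `X` the number of the twists considered tends
to infinity with `X` as slowly as one likes, and the twists `a` are not squarefree in general. There is
one exceptional set for all families of curves.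

The third case occurs for `g = (z ^ 2 + 51, z ^ 2 - 1)`, `h = (z ^ 2 + 1) (z ^ 2 - 17) (z ^ 2 + 17)`,
`b = 1`, and then there are points over the real numbers and over all the `p`-adic fields on all the
curves `C a` (last part of the theorem, from the starting result).

Proof. A set of integral vectors is pronull if its closure in the product of the `ℤ_p ^ ι` over the
primes `p` which do not divide `M` has Haar measure zero, for all `M`. For a class which is not
persistent there are a positive proportion of primes `p` (Chebotarev's theorem) such that no zero-cycle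
on `C a` over `ℚ_p` has this class if `p` divides `a` exactly once (local analysis of helper925). The set
of the vectors `c` for which no such prime divides `λ(c)` exactly once is pronull (helper676, with the
engine of helper24, helper300 and helper765). By the theorem of Koksma in several variables almost all
metric sequences are in such a set only for indices of density zero (helper24 with the workers of the
project KM). There are countably many `(b, g, h)` and `λ`, and a diagonal argument gives one set `E`.
-/

set_option autoImplicit false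

namespace Pool.Agent.Results.MP_1ad228_nt.MetricSequences

open Polynomial MeasureTheory Filter Topology Pool.Agent.R925.FD Pool.Agent.R925.ZC
open Pool.Agent.Results.MP_1ad228_nt.ZeroCyclesOfTwistedCoverings
  (Admissible OddDegree OfPersistentClass NoPersistentClasses parity_of_odd)
open Pool.Agent.N676.OR (Hit Big)

/-- The hypothesis of Koksma's theorem: the functions `f n` are twice continuously differentiable, the
derivatives of different ones differ by at least `δ > 0` on `[a, b]`, and the second derivative of
`f m - f n` does not change its sign there. -/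
def Koksma (a b : ℝ) (f : ℕ → ℝ → ℝ) : Prop :=
  (∀ n, ContDiff ℝ 2 (f n)) ∧ ∃ δ : ℝ, 0 < δ ∧ ∀ m n : ℕ, m ≠ n →
    (∀ x ∈ Set.Icc a b, δ ≤ |deriv (f m) x - deriv (f n) x|) ∧
    ((∀ x ∈ Set.Icc a b, deriv (deriv (f n)) x ≤ deriv (deriv (f m)) x) ∨
      ∀ x ∈ Set.Icc a b, deriv (deriv (f m)) x ≤ deriv (deriv (f n)) x)

/-- `E` has natural density zero. -/
def DensityZero (E : Set ℕ) : Prop :=
  Tendsto (fun N : ℕ => (({x : ℕ | x < N ∧ x ∈ E}.ncard : ℕ) : ℝ) / (N : ℝ)) atTop (𝓝 0)

/-- The orthogonal adelic zero-cycles of odd degree on the curves `C a`, `m` even, `m ∣ deg h`, have the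
values of persistent classes; if `h` has one or two rational zeros, they exist only if there is a
rational point; there are none if there are no persistent classes. -/
def GoodTwist {r : ℕ} (b : ℤ) (g : Fin r → ℤ[X]) (h : ℤ[X]) (a : ℤ) : Prop :=
  ∀ m : ℕ, 0 < m → Even m → m ∣ h.natDegree →
    (∀ Z : AdelicCycle m b a g h, OddDegree Z → Z.Orthogonal → OfPersistentClass Z) ∧
    (∀ α₁ α₂ : ℚ, (∀ β : AlgebraicClosure ℚ, aeval β h = 0 ↔ β = α₁ ∨ β = α₂) →
      (∃ Z : AdelicCycle m b a g h, OddDegree Z ∧ Z.Orthogonal) → Nonempty (Point m b a g h ℚ)) ∧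
    (NoPersistentClasses b g h → ∀ Z : AdelicCycle m b a g h, OddDegree Z → ¬ Z.Orthogonal)

/-- The twists by all linear forms of the vectors `c 0, c 1, …`, for ALL families of curves, have the
property `GoodTwist`, apart from the indices in one set of density zero and finitely many more,
depending on the family and the linear form. -/
def Good {ι : Type} [Fintype ι] (c : ℕ → ι → ℤ) : Prop :=
  ∃ E : Set ℕ, DensityZero E ∧
    ∀ (r : ℕ) (b : ℤ) (g : Fin r → ℤ[X]) (h : ℤ[X]), Admissible b g h →
      ∀ lam : ι → ℤ, lam ≠ 0 → {x : ℕ | x ∉ E ∧ ¬ GoodTwist b g h (∑ i, lam i * c x i)}.Finite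

lemma goodTwist_of {r : ℕ} {b : ℤ} {g : Fin r → ℤ[X]} {h : ℤ[X]} (hA : Admissible b g h) :
    ∃ PP : Set (Set ℕ), PP.Finite ∧ (∀ P ∈ PP, Big P) ∧
      ∀ a : ℤ, (∀ P ∈ PP, Hit P a) → GoodTwist b g h a := by
  classical
  obtain ⟨PP, h1, h2, h3⟩ :=
    Pool.Agent.N18.KM.zc_once hA.b_ne hA.g_ne hA.h_deg hA.deg hA.coprime hA.coprime_h
  refine ⟨PP, h1, h2, fun a ha m hm0 hm hmh => ?_⟩
  have h4 : ∀ Z : AdelicCycle m b a g h, OddDegree Z → Z.Orthogonal → OfPersistentClass Z :=
    fun Z hd hZ => h3 a ha m hm hmh 1 Z (parity_of_odd hd) hZ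
  refine ⟨h4, fun α₁ α₂ hz hex => ?_, fun hno Z hd hZ => ?_⟩
  · obtain ⟨Z, hd, hZ⟩ := hex
    obtain ⟨n, _, hn2, hn3, _⟩ := h4 Z hd hZ
    obtain ⟨P, -⟩ := realize_odd (m := m) (a := a) hm0 hA.b_ne hz
      (fun k => g_ne hA.h_deg hA.coprime_h ((hz α₁).2 (Or.inl rfl)) k)
      (fun k => g_ne hA.h_deg hA.coprime_h ((hz α₂).2 (Or.inr rfl)) k) odd_one _ hn2 hn3
    exact ⟨P⟩
  · obtain ⟨n, _, hn2, hn3, _⟩ := h4 Z hd hZ
    exact hno _ hn2 hn3

theorem parts (ι : Type) [Fintype ι] :
    (∀ (a b : ι → ℝ) (f : ι → ℕ → ℝ → ℝ), (∀ i, a i < b i) → (∀ i, Koksma (a i) (b i) (f i)) →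
      ∀ᵐ α : ι → ℝ, (∀ i, α i ∈ Set.Icc (a i) (b i)) → Good fun x i => ⌊f i x (α i)⌋) ∧
    (∀ (a : ι → ℕ → ℝ) (δ : ℝ), 0 < δ → (∀ i m n, m ≠ n → δ ≤ |a i m - a i n|) →
      ∀ᵐ α : ι → ℝ, Good fun x i => ⌊a i x * α i⌋) ∧
    (∀ (k : ℕ → ℕ) (ξ : ι → ℝ), Function.Injective k → (∀ i, ξ i ≠ 0) →
      ∀ᵐ α : ι → ℝ, (∀ i, 1 < α i) → Good fun x i => ⌊ξ i * α i ^ k x⌋) := by
  classical
  have hcp := Pool.Agent.N676.OR.countable_poly
  refine Pool.Agent.N18.KM.parts_tw Pool.Agent.N24.KM.main
    (𝔇 := Σ r : ℕ, ℤ × (Fin r → ℤ[X]) × ℤ[X])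
    (fun D a => Admissible D.2.1 D.2.2.1 D.2.2.2 → GoodTwist D.2.1 D.2.2.1 D.2.2.2 a) ?_ Good ?_
  · rintro ⟨r, b, g, h⟩
    by_cases hA : Admissible b g h
    · obtain ⟨PP, h1, h2, h3⟩ := goodTwist_of hA
      exact ⟨PP, h1, h2, fun a ha _ => h3 a ha⟩
    · exact ⟨∅, Set.finite_empty, fun P hP => absurd hP (Set.notMem_empty _),
        fun a _ hA' => absurd hA' hA⟩
  · intro c E hE hall
    refine ⟨E, hE, fun r b g h hA lam hlam => (hall lam hlam ⟨r, b, g, h⟩).subset ?_⟩
    rintro x ⟨hx, hx'⟩
    exact ⟨hx, fun hgood => hx' (hgood hA)⟩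

theorem result :
    (∀ (ι : Type) [Fintype ι],
      (∀ (a b : ι → ℝ) (f : ι → ℕ → ℝ → ℝ), (∀ i, a i < b i) → (∀ i, Koksma (a i) (b i) (f i)) →
        ∀ᵐ α : ι → ℝ, (∀ i, α i ∈ Set.Icc (a i) (b i)) → Good fun x i => ⌊f i x (α i)⌋) ∧
      (∀ (a : ι → ℕ → ℝ) (δ : ℝ), 0 < δ → (∀ i m n, m ≠ n → δ ≤ |a i m - a i n|) →
        ∀ᵐ α : ι → ℝ, Good fun x i => ⌊a i x * α i⌋) ∧
      (∀ (k : ℕ → ℕ) (ξ : ι → ℝ), Function.Injective k → (∀ i, ξ i ≠ 0) →
        ∀ᵐ α : ι → ℝ, (∀ i, 1 < α i) → Good fun x i => ⌊ξ i * α i ^ k x⌋)) ∧
    Admissible 1 exg exh ∧ NoPersistentClasses 1 exg exh ∧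
    ∀ (m : ℕ) (a : ℤ), m ≠ 0 → Nonempty (Point m 1 a exg exh ℝ) ∧
      ∀ (p : ℕ) [Fact p.Prime], Nonempty (Point m 1 a exg exh ℚ_[p]) :=
  ⟨fun ι _ => parts ι, Pool.Agent.Results.MP_1ad228_nt.ZeroCyclesOfTwistedCoverings.result.2.2⟩

end Pool.Agent.Results.MP_1ad228_nt.MetricSequences
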