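import Pool.Agent.N676.OR.Cnt
import Pool.Agent.N676.OR.Diag
import Pool.Agent.N676.OR.ZC
import Pool.Agent.Results.MP_1ad228_nt.ZeroCyclesOfTwistedCoverings

/-!
# Zero-cycles of odd degree on twists of cyclic coverings along random orbits of thin groups

Let `b y ^ 2 = ∏ k, G k (z, w)` be a hyperelliptic curve `D` over `ℚ`, where the `G k` are the
homogenisations of polynomials `g k` with integral coefficients, of even degrees, pairwise coprime, and
let `h` be a polynomial with integral coefficients, coprime to the `g k`, `H` its homogenisation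
(`Admissible`). For an integer `a` and an even `m ∣ deg h` let

  `C a : b y ^ 2 = ∏ k, G k (z, w)`, `a x ^ m = H (z, w)`.

The starting result `ZeroCyclesOfTwistedCoverings` (whose definitions are used) treats 100% of the
squarefree integers `|a| ≤ X`, for one family `(b, g, h)`. Here `a = λ(c)` is the value of a linear form
`λ ≠ 0` with integral coefficients at the vectors of a random orbit: `W` is a finite family
`s_0, …, s_M` of matrices in `SL_r(ℤ)`, `r ≥ 2`, which generates `SL_r(ℤ/q)` for all `q` prime to some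
`q₀` (by strong approximation this is so for every finite set of matrices which generates a Zariski
dense subgroup, for example a thin one), `w 0, w 1, …` are independent uniformly distributed indices,
and `c_t = s_(w (t-1)) ⋯ s_(w 0) v`.

**Theorem.** (1) For every family `(b, g, h)` and every `λ ≠ 0` the set of the vectors `c` for which
`a = λ(c)` does not have the property `Good` is pronull: its closure in the product of the `ℤ_p^r`,
`p` not dividing `M`, has Haar measure zero, for all `M`.

(2) For almost every word `w` there is ONE set `E` of times of density zero such that for ALL vectors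
`v ≠ 0`, ALL linear forms `λ ≠ 0` and ALL families `(b, g, h)` the integer `a = λ(c_t)` has the property
`Good` for all but finitely many `t` outside `E`. For all but finitely many `t` outside `E` no adelic
zero-cycle of odd degree on the curves `y² = (z² + 51) (z² - 1)`,
`a x ^ m = (z² + 1) (z² - 17) (z² + 17)`, `m = 2, 6`, is orthogonal, although these curves have points
over `ℝ` and over all `ℚ_p`.

`Good` means that for all even `m ∣ deg h`, and the quaternion algebras `(G k, e)` of the Brauer group: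
* every orthogonal adelic zero-cycle of odd degree on `C a` has the values of a persistent class;
* if the zeros of `h` are one or two rational numbers, the existence of an orthogonal adelic zero-cycle
  of odd degree implies the existence of a rational point;
* if there are no persistent classes, no adelic zero-cycle of odd degree is orthogonal.

So in the last two cases the Brauer-Manin obstruction is the only one to the existence of zero-cycles of
degree one on `C a`, and even to the existence of rational points.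

The proof: the local analysis of helper925 (starting library, `Pool.Agent.R925.ZC`) at a prime which
divides `a` exactly once and has a given Frobenius element, here for integers `a` which are not
squarefree; the set of the `c` such that no prime with this Frobenius element divides `λ(c)` exactly
once is pronull, and by the theorem of `Pool.Agent.N24.RW` (helper24 and helpers 543, 195, 300, 765,
340, 123) the random orbit is in a pronull set only at times of density zero; there are only countably
many conditions.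
-/

set_option autoImplicit false

namespace Pool.Agent.Results.MP_1ad228_nt.RandomOrbits

open Polynomial MeasureTheory Pool.Agent.R925.FD Pool.Agent.R925.ZC
open Pool.Agent.N24.RW Pool.Agent.N676.OR
open Pool.Agent.Results.MP_1ad228_nt.ZeroCyclesOfTwistedCoverings
  (Admissible OddDegree OfPersistentClass NoPersistentClasses parity_of_odd)

/-- The statements on adelic zero-cycles of odd degree on the curves `C a`, `m` even, `m ∣ deg h`. -/
def Good {r : ℕ} (b : ℤ) (g : Fin r → ℤ[X]) (h : ℤ[X]) (a : ℤ) : Prop :=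
  (∀ m : ℕ, 0 < m → Even m → m ∣ h.natDegree → ∀ Z : AdelicCycle m b a g h,
    OddDegree Z → Z.Orthogonal → OfPersistentClass Z) ∧
  (∀ α₁ α₂ : ℚ, (∀ β : AlgebraicClosure ℚ, aeval β h = 0 ↔ β = α₁ ∨ β = α₂) →
    ∀ m : ℕ, 0 < m → Even m → m ∣ h.natDegree →
      (∃ Z : AdelicCycle m b a g h, OddDegree Z ∧ Z.Orthogonal) → Nonempty (Point m b a g h ℚ)) ∧
  (NoPersistentClasses b g h → ∀ m : ℕ, 0 < m → Even m → m ∣ h.natDegree →
    ¬ ∃ Z : AdelicCycle m b a g h, OddDegree Z ∧ Z.Orthogonal)

lemma good_of {r : ℕ} {b : ℤ} {g : Fin r → ℤ[X]} {h : ℤ[X]} (hA : Admissible b g h) :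
    ∃ PP : Set (Set ℕ), PP.Finite ∧ (∀ P ∈ PP, Big P) ∧
      ∀ a : ℤ, (∀ P ∈ PP, Hit P a) → Good b g h a := by
  classical
  obtain ⟨PP, h1, h2, h3⟩ := zc_once hA.b_ne hA.g_ne hA.h_deg hA.deg hA.coprime hA.coprime_h
  refine ⟨PP, h1, h2, fun a ha => ⟨?_, ?_, ?_⟩⟩
  · intro m _ hm hmh Z hd hZ
    exact h3 a ha m hm hmh 1 Z (parity_of_odd hd) hZ
  · rintro α₁ α₂ hz m hm0 hm hmh ⟨Z, hd, hZ⟩
    obtain ⟨n, _, hn2, hn3, _⟩ := h3 a ha m hm hmh 1 Z (parity_of_odd hd) hZ
    obtain ⟨P, -⟩ := realize_odd (m := m) (a := a) hm0 hA.b_ne hz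
      (fun k => g_ne hA.h_deg hA.coprime_h ((hz α₁).2 (Or.inl rfl)) k)
      (fun k => g_ne hA.h_deg hA.coprime_h ((hz α₂).2 (Or.inr rfl)) k) odd_one _ hn2 hn3
    exact ⟨P⟩
  · rintro hno m hm0 hm hmh ⟨Z, hd, hZ⟩
    obtain ⟨n, _, hn2, hn3, _⟩ := h3 a ha m hm hmh 1 Z (parity_of_odd hd) hZ
    exact hno _ hn2 hn3

lemma adm_ex : Admissible 1 exg exh :=
  ⟨one_ne_zero, exg_ne, by rw [exh_deg]; norm_num, fun k => by rw [exg_deg], exg_coprime,
    exgh_coprime⟩

theorem result :
    (∀ (r : ℕ) (b : ℤ) (g : Fin r → ℤ[X]) (h : ℤ[X]), Admissible b g h →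
      ∀ (ι : Type) [Fintype ι] (lam : ι → ℤ), lam ≠ 0 →
        ProNull {c : ι → ℤ | ¬ Good b g h (∑ i, lam i * c i)}) ∧
    (∀ (ι : Type) [Fintype ι] [DecidableEq ι], 2 ≤ Fintype.card ι → ∀ W : Walk ι,
      ∀ᵐ w ∂(words W.m), ∃ E : Set ℕ, DensityZero E ∧
        ∀ v : ι → ℤ, v ≠ 0 → ∀ lam : ι → ℤ, lam ≠ 0 →
          (∀ (r : ℕ) (b : ℤ) (g : Fin r → ℤ[X]) (h : ℤ[X]), Admissible b g h →
            {t : ℕ | t ∉ E ∧ ¬ Good b g h (∑ i, lam i * orb W v w t i)}.Finite) ∧
          {t : ℕ | t ∉ E ∧ ∃ m : ℕ, 0 < m ∧ Even m ∧ m ∣ exh.natDegree ∧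
            ∃ Z : AdelicCycle m 1 (∑ i, lam i * orb W v w t i) exg exh,
              OddDegree Z ∧ Z.Orthogonal}.Finite) ∧
    (∀ (m : ℕ) (a : ℤ), m ≠ 0 → Nonempty (Point m 1 a exg exh ℝ) ∧
      ∀ (p : ℕ) [Fact p.Prime], Nonempty (Point m 1 a exg exh ℚ_[p])) := by
  classical
  have hcp := countable_poly
  have key := orbit_principle (𝔇 := Σ r : ℕ, ℤ × (Fin r → ℤ[X]) × ℤ[X])
    (fun D a => Admissible D.2.1 D.2.2.1 D.2.2.2 → Good D.2.1 D.2.2.1 D.2.2.2 a) (by
    rintro ⟨r, b, g, h⟩
    by_cases hA : Admissible b g h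
    · obtain ⟨PP, h1, h2, h3⟩ := good_of hA
      exact ⟨PP, h1, h2, fun a ha _ => h3 a ha⟩
    · exact ⟨∅, Set.finite_empty, fun P hP => absurd hP (Set.notMem_empty _),
        fun a _ hA' => absurd hA' hA⟩)
  refine ⟨?_, ?_, fun m a hm => ⟨?_, ?_⟩⟩
  · intro r b g h hA ι _ lam hlam
    refine Clo.mono ?_ (key.1 ι lam hlam ⟨r, b, g, h⟩)
    intro c hc hgood
    exact hc (hgood hA)
  · intro ι _ _ hι W
    filter_upwards [key.2 ι hι W] with w hw
    obtain ⟨E, hE, hall⟩ := hw
    have hgen : ∀ v : ι → ℤ, v ≠ 0 → ∀ lam : ι → ℤ, lam ≠ 0 →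
        ∀ (r : ℕ) (b : ℤ) (g : Fin r → ℤ[X]) (h : ℤ[X]), Admissible b g h →
            {t : ℕ | t ∉ E ∧ ¬ Good b g h (∑ i, lam i * orb W v w t i)}.Finite := by
      intro v hv lam hlam r b g h hA
      refine (hall v hv lam hlam ⟨r, b, g, h⟩).subset ?_
      rintro t ⟨ht, ht'⟩
      exact ⟨ht, fun hgood => ht' (hgood hA)⟩
    refine ⟨E, hE, fun v hv lam hlam => ⟨hgen v hv lam hlam, ?_⟩⟩
    refine (hgen v hv lam hlam 2 1 exg exh adm_ex).subset ?_
    rintro t ⟨ht, m, hm0, hm, hmh, hZ⟩
    refine ⟨ht, fun hgood => ?_⟩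
    exact hgood.2.2 (fun δ hδ => ex_not_zpers δ (hδ.1 0) odd_one) m hm0 hm hmh hZ
  · obtain ⟨z, w, x, y, h1, h2, h3⟩ := ex_real m hm a
    exact ⟨⟨z, w, x, y, h1, h2, h3⟩⟩
  · intro p hp
    obtain ⟨z, w, x, y, h1, h2, h3⟩ := ex_padic m hm a p
    exact ⟨⟨z, w, x, y, h1, h2, h3⟩⟩

end Pool.Agent.Results.MP_1ad228_nt.RandomOrbits
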