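import Pool.Agent.N546.ZT.ZC
import Pool.Agent.Results.MP_1ad228_nt.ZeroCyclesOfTwistedCoverings

/-!
# Zero-cycles of degree one on twists in thin sequences: one null set for all coverings

Let `b y ^ 2 = ∏ k, G k (z, w)` be a hyperelliptic curve `D` over `ℚ`, where the `G k` are the
homogenisations of polynomials `g k` with integral coefficients, of even degrees, pairwise coprime.
Let `h` be a polynomial with integral coefficients, coprime to the `g k`, and `H` its homogenisation.
For a nonzero integer `a` and an even `m ∣ deg h` consider the curve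

  `C a : b y ^ 2 = ∏ k, G k (z, w)`, `a x ^ m = H (z, w)`,

a cyclic covering of degree `m` of `D`; for different `a` these coverings are twists of each other.
The starting file `ZeroCyclesOfTwistedCoverings` shows that for almost all squarefree `a` the orthogonal
adelic zero-cycles of odd degree on `C a` have the values of persistent classes, so that the
Brauer-Manin obstruction is the only one to the existence of zero-cycles of degree one (and of
rational points) if the zeros of `h` are one or two rational numbers or if there are no persistent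
classes.

Let `z_0, z_1, z_2, …` be sequences of integers such that all finite subfamilies are uniformly
distributed modulo all `q`, along the sets `S₁ N ⊆ (N, 2 N]` and `S₂ N ⊆ (N, 2 N]`, `N → ∞`. For example
`S₁ N` and `S₂ N` can be the sets of all integers and of all primes of `(N, 2 N]` and `z_l(t) = ⌊P_l(t)⌋`,
where the `P_l(t) = ∑ a_x t ^ x` are generalised polynomials (finitely many real exponents, real
coefficients) with distinct leading exponents which are positive and not integers and have positive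
coefficients, such as `P_l(t) = t ^ (2 l + √2)`.

**Theorem.** (1) For all data `b`, `g`, `h` there are finitely many sets of primes with divergent sums of
reciprocals such that this is true for ALL integers `a`, squarefree or not, with an exact prime
divisor in each of these sets.

(2) There is ONE set `E` of integers of density zero relative to the sets `S₁ N` and to the sets `S₂ N`,
such that this is true for ALL data `b`, `g`, `h` and all products `a = u ∏ z_l(t) ^ e_l` (`u ≠ 0`,
some `e_l = 1`) for all but finitely many integers `t` outside `E`. The set `E` depends on the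
`z_l` only.

Proof. The starting file considers almost all squarefree `a`. Its local analysis works at the exact
prime divisors of an arbitrary integer `a`: the property needs one exact prime divisor in each of
finitely many sets of primes of positive density (theorem of Chebotarev), which depend on `g`, `h`, `b` only.
By the uniform distribution of `z_0(t), …, z_k(t)` Turan's sieve gives exact prime divisors of each
`z_l(t)` in each of these sets, not dividing the others, for almost all `t`, and a diagonal argument gives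
one set `E` for the countably many data and all exponents. The integer parts of generalised
polynomials are uniformly distributed by estimates of exponential sums (engine of helper666).
-/

set_option autoImplicit false

namespace Pool.Agent.Results.MP_1ad228_nt.ThinSequences

open Polynomial Pool.Agent.R925.FD Pool.Agent.R925.ZC
open Pool.Agent.Results.MP_1ad228_nt.ZeroCyclesOfTwistedCoverings (Admissible OddDegree
  OfPersistentClass NoPersistentClasses parity_of_odd)

/-- All finite subfamilies of the sequences `z 0, z 1, …` of integers are uniformly distributed modulo all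
`q`, along the sets `S N`. -/
def UD (S : ℕ → Finset ℕ) (z : ℕ → ℕ → ℤ) : Prop :=
  ∀ (r : ℕ) (σ : Fin r → ℕ), Function.Injective σ → ∀ q : ℕ, 1 ≤ q → ∀ ρ : Fin r → ℤ,
    Filter.Tendsto (fun N => ({t : ℕ | t ∈ S N ∧ ∀ i, (q : ℤ) ∣ z (σ i) t - ρ i}.ncard : ℝ) / (S N).card)
      Filter.atTop (nhds (1 / (q : ℝ) ^ r))

/-- `c` is the largest exponent of the generalised polynomial `∑ a_x t ^ x`; it is positive and not an
integer and has a positive coefficient. -/
def Leading (F : Finset ℝ) (a : ℝ → ℝ) (c : ℝ) : Prop :=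
  c ∈ F ∧ (∀ x ∈ F, x ≤ c) ∧ 0 < c ∧ (∀ m : ℕ, c ≠ m) ∧ 0 < a c

/-- The integer parts of the values of the generalised polynomials `P_l(t) = ∑ a_x t ^ x`. -/
noncomputable def floors (F : ℕ → Finset ℝ) (a : ℕ → ℝ → ℝ) (l t : ℕ) : ℤ :=
  ⌊∑ x ∈ F l, a l x * (t : ℝ) ^ x⌋

/-- The integer `u ∏ z_l(t) ^ e_l`, `l ∈ s`. -/
def twist (z : ℕ → ℕ → ℤ) (s : Finset ℕ) (e : ℕ → ℕ) (u : ℤ) (t : ℕ) : ℤ :=
  u * ∏ l ∈ s, z l t ^ e l

/-- `E` has density zero relative to the sets `S N`. -/
def NullIn (S : ℕ → Finset ℕ) (E : Set ℕ) : Prop :=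
  ∀ ε : ℝ, 0 < ε → ∃ N₀ : ℕ, ∀ N : ℕ, N₀ ≤ N →
    ({t : ℕ | t ∈ S N ∧ t ∈ E}.ncard : ℝ) ≤ ε * (S N).card

/-- The property `P` is satisfied for all integers `a` which have an exact prime divisor in each of
finitely many sets of primes with divergent sums of reciprocals. -/
def LocalCriterion (P : ℤ → Prop) : Prop :=
  ∃ (r : ℕ) (Q : Fin r → Set ℕ), (∀ i, ∀ p ∈ Q i, p.Prime) ∧
    (∀ i, ∀ B : ℝ, ∃ y : ℕ, B ≤ ∑ p ∈ Finset.range y,
      Set.indicator (Q i) (fun p : ℕ => 1 / (p : ℝ)) p) ∧
    ∀ a : ℤ, (∀ i, ∃ p ∈ Q i, (p : ℤ) ∣ a ∧ ¬ (p : ℤ) ^ 2 ∣ a) → P a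

/-- For all products `a = u ∏ z_l(t) ^ e_l` with `u ≠ 0` and some `e_l = 1` the property `P a` holds for
all but finitely many integers `t` outside `E`. -/
def ForTwists (z : ℕ → ℕ → ℤ) (E : Set ℕ) (P : ℤ → Prop) : Prop :=
  ∀ (s : Finset ℕ) (e : ℕ → ℕ) (u : ℤ), u ≠ 0 → (∃ l ∈ s, e l = 1) →
    {t : ℕ | t ∉ E ∧ ¬ P (twist z s e u t)}.Finite

/-- On the curves `C a` every orthogonal adelic zero-cycle of odd degree has the values of a persistent
class. -/
def OnlyPersistent {K : Type} [Fintype K] [DecidableEq K] (b : ℤ) (g : K → ℤ[X]) (h : ℤ[X]) (a : ℤ) :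
    Prop :=
  ∀ m, 0 < m → Even m → m ∣ h.natDegree → ∀ Z : AdelicCycle m b a g h, OddDegree Z →
    Z.Orthogonal → OfPersistentClass Z

/-- The curves `C a` with an orthogonal adelic zero-cycle of odd degree have rational points. -/
def OnlyObstruction {K : Type} [Fintype K] [DecidableEq K] (b : ℤ) (g : K → ℤ[X]) (h : ℤ[X]) (a : ℤ) :
    Prop :=
  ∀ m, 0 < m → Even m → m ∣ h.natDegree →
    (∃ Z : AdelicCycle m b a g h, OddDegree Z ∧ Z.Orthogonal) → Nonempty (Point m b a g h ℚ)

/-- The curves `C a` have no orthogonal adelic zero-cycles of odd degree. -/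
def NoneOrthogonal {K : Type} [Fintype K] [DecidableEq K] (b : ℤ) (g : K → ℤ[X]) (h : ℤ[X]) (a : ℤ) :
    Prop :=
  ∀ m, 0 < m → Even m → m ∣ h.natDegree →
    ¬ ∃ Z : AdelicCycle m b a g h, OddDegree Z ∧ Z.Orthogonal

lemma LocalCriterion.mono {P P' : ℤ → Prop} (h : LocalCriterion P) (h' : ∀ a, P a → P' a) :
    LocalCriterion P' := by
  obtain ⟨r, Q, h1, h2, h3⟩ := h
  exact ⟨r, Q, h1, h2, fun a ha => h' a (h3 a ha)⟩

lemma ForTwists.mono {z : ℕ → ℕ → ℤ} {E : Set ℕ} {P P' : ℤ → Prop}
    (h : ForTwists z E P) (h' : ∀ a, P a → P' a) : ForTwists z E P' := fun s e u hu hs =>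
  (h s e u hu hs).subset fun _ ⟨h1, h2⟩ => ⟨h1, fun h3 => h2 (h' _ h3)⟩

section
variable {K : Type} [Fintype K] [DecidableEq K] {b : ℤ} {g : K → ℤ[X]} {h : ℤ[X]} {a : ℤ}

lemma only_of (hp : Pool.Agent.N546.ZT.ZCProp b g h a) : OnlyPersistent b g h a :=
  fun m _ hm hmh Z h1 h2 => hp m hm hmh 1 Z (parity_of_odd h1) h2

lemma obstruction_of (hA : Admissible b g h) {α₁ α₂ : ℚ}
    (hz : ∀ β : AlgebraicClosure ℚ, aeval β h = 0 ↔ β = α₁ ∨ β = α₂)
    (hp : Pool.Agent.N546.ZT.ZCProp b g h a) : OnlyObstruction b g h a := by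
  rintro m hm0 hm hmh ⟨Z, h1, h2⟩
  obtain ⟨n, _, hn2, hn3, _⟩ := hp m hm hmh 1 Z (parity_of_odd h1) h2
  obtain ⟨P, -⟩ := realize_odd (m := m) (a := a) hm0 hA.b_ne hz
    (fun k => g_ne hA.h_deg hA.coprime_h ((hz α₁).2 (Or.inl rfl)) k)
    (fun k => g_ne hA.h_deg hA.coprime_h ((hz α₂).2 (Or.inr rfl)) k) odd_one _ hn2 hn3
  exact ⟨P⟩

lemma none_of' (hno : NoPersistentClasses b g h) (hp : Pool.Agent.N546.ZT.ZCProp b g h a) :
    NoneOrthogonal b g h a := by
  rintro m _ hm hmh ⟨Z, h1, h2⟩
  obtain ⟨n, _, hn2, hn3, _⟩ := hp m hm hmh 1 Z (parity_of_odd h1) h2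
  exact hno _ hn2 hn3

end

theorem result :
    (∀ (K : Type) [Fintype K] [DecidableEq K] (b : ℤ) (g : K → ℤ[X]) (h : ℤ[X]), Admissible b g h →
      LocalCriterion (OnlyPersistent b g h) ∧
      (∀ α₁ α₂ : ℚ, (∀ β : AlgebraicClosure ℚ, aeval β h = 0 ↔ β = α₁ ∨ β = α₂) →
        LocalCriterion (OnlyObstruction b g h)) ∧
      (NoPersistentClasses b g h → LocalCriterion (NoneOrthogonal b g h))) ∧
    (∀ S₁ S₂ : ℕ → Finset ℕ, (∀ N, S₁ N ⊆ Finset.Ioc N (2 * N)) →
      (∀ N, S₂ N ⊆ Finset.Ioc N (2 * N)) → ∀ z : ℕ → ℕ → ℤ, UD S₁ z → UD S₂ z →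
      ∃ E : Set ℕ, NullIn S₁ E ∧ NullIn S₂ E ∧
        ∀ (r : ℕ) (b : ℤ) (g : Fin r → ℤ[X]) (h : ℤ[X]), Admissible b g h →
          ForTwists z E (OnlyPersistent b g h) ∧
          (∀ α₁ α₂ : ℚ, (∀ β : AlgebraicClosure ℚ, aeval β h = 0 ↔ β = α₁ ∨ β = α₂) →
            ForTwists z E (OnlyObstruction b g h)) ∧
          (NoPersistentClasses b g h → ForTwists z E (NoneOrthogonal b g h))) ∧
    (∀ (F : ℕ → Finset ℝ) (a : ℕ → ℝ → ℝ) (c : ℕ → ℝ), (∀ l, Leading (F l) (a l) (c l)) →
      Function.Injective c → UD (fun N => Finset.Ioc N (2 * N)) (floors F a) ∧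
        UD (fun N => (Finset.Ioc N (2 * N)).filter Nat.Prime) (floors F a)) ∧
    Admissible 1 exg exh ∧ NoPersistentClasses 1 exg exh ∧
    ∀ (m : ℕ) (a : ℤ), m ≠ 0 → Nonempty (Point m 1 a exg exh ℝ) ∧
      ∀ (p : ℕ) [Fact p.Prime], Nonempty (Point m 1 a exg exh ℚ_[p]) := by
  refine ⟨fun K _ _ b g h hA => ?_, fun S₁ S₂ hS₁ hS₂ z h₁ h₂ => ?_,
    fun F a c hF hc => Pool.Agent.N924.TH.ud_fl hF hc,
    ZeroCyclesOfTwistedCoverings.result.2.2⟩
  · have hcrit : LocalCriterion (Pool.Agent.N546.ZT.ZCProp b g h) :=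
      Pool.Agent.N546.ZT.zc_crit hA.b_ne hA.g_ne hA.h_deg hA.deg hA.coprime hA.coprime_h
    exact ⟨hcrit.mono fun _ => only_of, fun α₁ α₂ hz => hcrit.mono fun _ => obstruction_of hA hz,
      fun hno => hcrit.mono fun _ => none_of' hno⟩
  · obtain ⟨E, h1, h2, h3⟩ := Pool.Agent.N546.ZT.thin_adm hS₁ hS₂ h₁ h₂
      Pool.Agent.N546.ZT.countable_data (fun d => Admissible d.2.2.1 d.2.2.2.1 d.2.2.2.2)
      (fun d x => Pool.Agent.N546.ZT.ZCProp d.2.2.1 d.2.2.2.1 d.2.2.2.2 x)
      (fun d hA => Pool.Agent.N546.ZT.zc_crit hA.b_ne hA.g_ne hA.h_deg hA.deg hA.coprime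
        hA.coprime_h)
    refine ⟨E, h1, h2, fun r b g h hA => ?_⟩
    have h4 : ForTwists z E (Pool.Agent.N546.ZT.ZCProp b g h) := h3 ⟨r, 0, b, g, h⟩ hA
    exact ⟨h4.mono fun _ => only_of, fun α₁ α₂ hz => h4.mono fun _ => obstruction_of hA hz,
      fun hno => h4.mono fun _ => none_of' hno⟩

end Pool.Agent.Results.MP_1ad228_nt.ThinSequences
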